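import Pool.Agent.H48.FreeSub.Necessity
import Pool.Agent.H48.FreeSub.Suff

/-!
# Countable sublattices of free lattices

An intrinsic characterization of the countable lattices which embed into a free lattice, together
with the necessity of the conditions for arbitrary lattices.
-/

namespace Pool.Agent.Results.MP_90881e_al.CountableSublattices

open Pool.Agent.H48.FreeSub

universe u

/-- A lattice which embeds into a free lattice satisfies Whitman's condition, and all its principal
filters and (dually) all its principal ideals are of finite type; conversely every countable
lattice with these properties embeds into a free lattice. -/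
theorem result (L : Type u) [Lattice L] :
    (EmbedsInFree L → WhitmanW L ∧ PrincipalFiniteType L ∧ PrincipalFiniteType Lᵒᵈ) ∧
    (Countable L → WhitmanW L ∧ PrincipalFiniteType L ∧ PrincipalFiniteType Lᵒᵈ →
      EmbedsInFree L) :=
  ⟨necessity, fun _ h => sufficiency L h.1 h.2.1 h.2.2⟩

end Pool.Agent.Results.MP_90881e_al.CountableSublattices
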