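import Pool.Agent.H74.FS.System

/-!
# Sublattices of free lattices: a criterion for lattices of arbitrary cardinality

A lattice embeds into a free lattice if and only if it has a node system; the node system can be
taken finitary; and this is equivalent to a local condition on the finite subsets of the lattice.
The definitions are in `Pool.Agent.H74.FS.Defs` and `Pool.Agent.H48.FreeSub.Defs`.
-/

namespace Pool.Agent.Results.MP_90881e_al.GeneralCriterion

open Pool.Agent.H48.FreeSub Pool.Agent.H74.FS

universe u

/-- Necessary and sufficient conditions for an arbitrary lattice to embed into a free lattice. -/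
theorem result (L : Type u) [Lattice L] :
    (EmbedsInFree L ↔ HasNodeSystem L) ∧ (EmbedsInFree L ↔ HasFinitaryNodeSystem L) ∧
      (EmbedsInFree L ↔ LocallyBounded L) := by
  have h := tfae_embeds L
  exact ⟨h.out 0 1, h.out 0 2, h.out 0 3⟩

end Pool.Agent.Results.MP_90881e_al.GeneralCriterion
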