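import Pool.Agent.H74.FS.System

/-!
# Lattices with finite join and meet refinements

A lattice which embeds into a free lattice satisfies Whitman's condition and is, as an ordered set,
isomorphic to a family of clopen subsets of a Cantor cube; conversely, these two conditions are
sufficient for all lattices with finite join refinements and finite meet refinements.
-/

namespace Pool.Agent.Results.MP_90881e_al.RefinementCriterion

open Pool.Agent.H48.FreeSub Pool.Agent.H74.FS

universe u

/-- Two necessary conditions, which are sufficient for lattices of arbitrary cardinality with finite
join refinements and finite meet refinements. -/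
theorem result (L : Type u) [Lattice L] :
    (EmbedsInFree L → WhitmanW L ∧ OrderEmbedsClopen L) ∧
      (FiniteJoinRefinement L → FiniteJoinRefinement Lᵒᵈ → WhitmanW L ∧ OrderEmbedsClopen L →
        EmbedsInFree L) :=
  ⟨fun h => ⟨whitmanW_of_embeds h, orderEmbedsClopen_of_free (orderEmbedsFree_of_embeds h)⟩,
    fun h1 h2 => (embeds_iff_of_refinement h1 h2).2⟩

end Pool.Agent.Results.MP_90881e_al.RefinementCriterion
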